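import Pool.Agent.Y8.ED.Res

/-!
MP_a38b17_an: failure of the energy equality for the Navier-Stokes equations with Dirichlet
conditions in an arbitrary bounded open set of `ℝ³` and an additional dissipation `D ≥ 0`.

For every viscosity `ν > 0`, every bounded open set `Ω` of `ℝ³`, every point `p` of `Ω`, every
functional `Λ` of the fields and every `η > 0` there are a complete orthonormal system `e` of the
space `H` of the problem, which consists of smooth divergence-free fields with compact support in
`Ω`, and a self-adjoint linear operator `D = ∑ lam i ⟨·, e i⟩ e i ≥ 0`, which vanishes on a sequence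
`e (ψ n)` of modes only (their supports shrink to `p`) and is as strong as we like on all the other
modes (`Λ (e i) ≤ lam i`), such that

  `∂ₜ u + (u · ∇) u + ∇p = ν Δ u - D u`,  `div u = 0`  in `Ω`,  `u = 0` on `∂Ω`

with the datum `u(0) = e (ψ 0)` has a Leray-Hopf solution on `[0, T]` which is classical, smooth and
satisfies the energy equality on `[0, T)`, is unique in the class of the Leray-Hopf solutions, and
loses almost all its energy (all but the part `η`) at the time `T`.
-/

set_option autoImplicit false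

open Set MeasureTheory Metric

namespace Pool.Agent.Results.MP_a38b17_an.AddedDissipationEnergyLoss

open Pool.Agent.Y303.SKR Pool.Agent.Y303.EJR Pool.Agent.Y8.DIR Pool.Agent.Y8.EDR

theorem result (ν : ℝ) (Ω : Set (EuclideanSpace ℝ (Fin 3))) (p : EuclideanSpace ℝ (Fin 3))
    (Λ : (EuclideanSpace ℝ (Fin 3) → EuclideanSpace ℝ (Fin 3)) → ℝ) (η : ℝ) (hν : 0 < ν)
    (hΩ : IsOpen Ω) (hb : Bornology.IsBounded Ω) (hp : p ∈ Ω) (hη : 0 < η) :
    ∃ (ι : Type) (e : ι → EuclideanSpace ℝ (Fin 3) → EuclideanSpace ℝ (Fin 3)) (lam : ι → ℝ)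
      (ψ : ℕ → ι) (T : ℝ) (u : ℝ → EuclideanSpace ℝ (Fin 3) → EuclideanSpace ℝ (Fin 3)),
      -- the dissipation: it vanishes on the modes `e (ψ n)`, which concentrate at `p`, and it is
      -- as strong as we like on all the other modes
      DissD Ω e lam ∧ Damp p Λ e lam ψ ∧ 0 < T ∧ u 0 = e (ψ 0) ∧
      -- `u` is a Leray-Hopf solution on `[0, T]`, and smooth in space on `[0, T)`
      LHL Ω ν e lam T u (fun t => gr (u t)) ∧ SolL Ω ν e lam T u ∧ SmD T u ∧
      -- the energy equality on `[0, T)`
      (∀ t ∈ Ico 0 T, tot ν e lam u (fun t => gr (u t)) t = ipr (u 0) (u 0)) ∧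
      -- uniqueness in the class of the Leray-Hopf solutions
      UnqL Ω ν e lam T u ∧
      -- almost all the energy is lost at the time `T`
      ∀ (v : ℝ → EuclideanSpace ℝ (Fin 3) → EuclideanSpace ℝ (Fin 3))
        (G : ℝ → EuclideanSpace ℝ (Fin 3) → Fin 3 → EuclideanSpace ℝ (Fin 3)),
        LHL Ω ν e lam T v G → v 0 =ᵐ[volume] u 0 →
        tot ν e lam v G T ≤ η * ipr (v 0) (v 0) :=
  t_RESED ν Ω p Λ η hν hΩ hb hp hη

end Pool.Agent.Results.MP_a38b17_an.AddedDissipationEnergyLoss
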