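import Pool.Agent.Y7.LN.Res2
import Pool.Agent.Y7.LN.All2
import Pool.Agent.Y948.LN.Par2
import Pool.Agent.Y261.LN.Sup
import Pool.Agent.Y406.LN.Lpq

/-!
MP_a38b17_an: non-uniqueness of Leray-Hopf solutions with an arbitrary energy defect, for the
Navier-Stokes equations with Dirichlet conditions in an arbitrary bounded open set of `ℝ³` and an
additional skew-adjoint linear term.

For every viscosity `ν > 0` and every nonempty bounded open set `Ω` of `ℝ³` there are a complete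
orthonormal system `e` of the space `H` of the problem, which consists of smooth divergence-free
fields with compact support in `Ω`, and a skew-adjoint linear operator `K = ∑ s i ⟨·, e (σ i)⟩ e i`
such that the problem

  `∂ₜ u + (u · ∇) u + ∇p = ν Δ u + K u`,  `div u = 0`  in `Ω`,  `u = 0` on `∂Ω`,  `u(0) = e i₀`

has a continuum of Leray-Hopf solutions `U δ` (`0 ≤ δ ≤ 7/10`) on `[0, Θ]`. Up to the time `T < Θ`
the Leray-Hopf solution is unique, and it is smooth before `T`; after the time `T` the solutions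
`U δ` are smooth, too, and they have the energy defect `δ`. (At the time `T` energy is in modes of
infinitely small length scale; an arbitrary part of it comes back.) All of them satisfy the energy
inequality from every initial time except `T`, and the bounds `|U δ (t, x)| ≤ M |t - T| ^ (-3/5 - ε)`
for every `ε > 0`; so they lie in `L^p(0, Θ; L^q)` for all `p ≥ 1` and `q ≥ 2` with
`5/(2p) + 3/q > 3/2`.
-/

set_option autoImplicit false

open Set MeasureTheory

namespace Pool.Agent.Results.MP_a38b17_an.LerayHopfNonUniqueness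

open Pool.Agent.Y303.SKR Pool.Agent.Y303.EJR Pool.Agent.Y7.LNR

theorem result (ν : ℝ) (Ω : Set (EuclideanSpace ℝ (Fin 3)))
    (hν : 0 < ν) (hΩ : IsOpen Ω) (hb : Bornology.IsBounded Ω) (hne : Ω.Nonempty) :
    ∃ (ι : Type) (e : ι → EuclideanSpace ℝ (Fin 3) → EuclideanSpace ℝ (Fin 3)) (σ : ι → ι)
      (s : ι → ℝ) (i₀ : ι) (T Θ : ℝ)
      (U : ℝ → ℝ → EuclideanSpace ℝ (Fin 3) → EuclideanSpace ℝ (Fin 3)),
      SkewD Ω e σ s ∧ 0 < T ∧ T < Θ ∧ ∀ δ ∈ Icc (0 : ℝ) (7 / 10),
        -- a Leray-Hopf solution on `[0, Θ]`; the initial value and the values up to the time `T`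
        -- do not depend on `δ`
        LH Ω ν e σ s Θ (U δ) (fun t => gr (U δ t)) ∧ U δ 0 = e i₀ ∧
        (∀ t ≤ T, U δ t = U 0 t) ∧
        -- it is classical and smooth on `[0, T)` and on `(T, Θ]`
        SolD Ω ν e σ s T (U δ) ∧ SmD T (U δ) ∧ SolA Ω ν e σ s T Θ (U δ) ∧
        -- energy equality before the time `T`
        (∀ t ∈ Ico 0 T, ipr (U δ t) (U δ t) +
          2 * ν * (∫ τ in (0 : ℝ)..t, gg (gr (U δ τ))) = ipr (U δ 0) (U δ 0)) ∧
        -- after the time `T` the energy defect is the fraction `δ` of the initial energy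
        (∀ t ∈ Ioc T Θ, ipr (U δ t) (U δ t) +
          2 * ν * (∫ τ in (0 : ℝ)..t, gg (gr (U δ τ))) = (1 - δ) * ipr (U δ 0) (U δ 0)) ∧
        -- energy inequality from every initial time `r ≠ T`
        (∀ r ∈ Icc 0 Θ, r ≠ T → ∀ t ∈ Icc r Θ,
          ipr (U δ t) (U δ t) + 2 * ν * (∫ τ in r..t, gg (gr (U δ τ))) ≤
            ipr (U δ r) (U δ r)) ∧
        -- the rate of the singularity
        (∀ ε > (0 : ℝ), ∃ M, ∀ t ∈ Icc 0 Θ, t ≠ T → ∀ x,
          ‖U δ t x‖ ≤ M * |t - T| ^ (-(3 / 5 + ε))) ∧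
        -- it lies in `L^p(0, Θ; L^q)`
        (∀ p q : ℝ, 1 ≤ p → 2 ≤ q → 3 / 2 < 5 / (2 * p) + 3 / q →
          ∫⁻ t in Ioo 0 Θ, (∫⁻ x, ‖U δ t x‖ₑ ^ q) ^ (p / q) < ⊤) ∧
        -- up to the time `T` the Leray-Hopf solution is unique
        ∀ (T' : ℝ) (v : ℝ → EuclideanSpace ℝ (Fin 3) → EuclideanSpace ℝ (Fin 3))
          (G : ℝ → EuclideanSpace ℝ (Fin 3) → Fin 3 → EuclideanSpace ℝ (Fin 3)), 0 < T' →
          T' ≤ T → LH Ω ν e σ s T' v G → v 0 =ᵐ[volume] U δ 0 →
          ∀ t ∈ Icc 0 T', v t =ᵐ[volume] U δ t :=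
  t_RES2_of (Pool.Agent.Y7.LN.t_FINL2 Pool.Agent.Y948.LN.t_PAR2 Pool.Agent.Y261.LN.t_SUP)
    Pool.Agent.Y406.LN.t_LPQ ν Ω hν hΩ hb hne

end Pool.Agent.Results.MP_a38b17_an.LerayHopfNonUniqueness
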