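import Pool.Agent.Y303.EA.Pub

/-!
# The energy defect and the work of the pressure

Let `u` be a weak solution of the Navier-Stokes equations in a bounded open set `Ω` whose pressure
has an integrable gradient, locally in time in `(0,T]`. (In smooth bounded domains with a square
integrable force all weak solutions have this property, by the maximal regularity of the Stokes
operator.) For the functions `w = u·∇(p + c|u|²/2)`, which are not known to be integrable, formally
`∫ w = 0`, and this is the identity behind the energy equality. The theorem says that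

* at almost every time the positive and the negative part of `w` have the same integral,
* the integral of `w/√(1 + ε|u|²)` over `(s,t) × Ω` converges to the increment of the energy defect
  from `s` to `t`, for *all* `0 < s ≤ t ≤ T`,
* the energy equality follows from a *one-sided* bound of `w` in the region where the head
  `H = p + c|u|²/2` is large; the number `c` may depend on the time.

For example the energy equality holds if `u·∇(p + c(t)|u|²/2) ≥ -h` with a function `h` which is
integrable in `(0,T) × Ω` (threshold `R = 0`), or if `p + c(t)|u|²/2` is square integrable in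
`(0,T) × Ω` (threshold `R = ∞`; the case `c = 0` is known: Kukavica), or if the negative part of
`u·∇H` is integrable over the set `{|H| > R(t)}` with `R ∈ L²(0,T)`.

For the proof the equations are tested with the bounded truncation `T(u) = u/√(1 + ε|u|²)`, the
gradient of the convex function `Φ(u) = (√(1 + ε|u|²) - 1)/ε`. The convexity gives
`∫ T(u(a))·(u(b) - u(a)) ≤ ∫ Φ(u(b)) - ∫ Φ(u(a))` for almost every `a`, and by an averaging argument
in time `∫ Φ(u)` is an absolutely continuous function with the expected derivative, at all times.
-/

set_option autoImplicit false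

open MeasureTheory Set Filter Topology
open scoped InnerProductSpace ENNReal ContDiff

namespace Pool.Agent.Results.MP_a38b17_an.PressureWork

open H772R2.NS.Pub Pool.Agent.Y303.EA

/-- Let `Ω` be a bounded open set, `u` a weak solution in `Ω × (0,T)` with `∇u = G`, force `f`, and
the pressure gradient `q`, and let `w_c = u·∇(p + c|u|²/2)` and `D` be the energy defect.
1. For almost every `t` and all `c`, the positive and the negative part of `w_c(t)` have the same
   integral over `Ω` (finite or not).
2. For all `c` and all `0 < s ≤ t ≤ T`, the integral of `w_c/√(1 + ε|u|²)` over `(s,t) × Ω`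
   converges to `D(t) - D(s)` as `ε → 0+`.
3. If `0 < s ≤ t ≤ T` and the work is bounded on `(s,t)` in the sense of `IsWorkBounded`, then
   `D(s) = D(t)`.
4. If the energy inequality `D ≥ 0` holds on `[0,T]` and the work is bounded on `(s,T)` for every
   `s > 0`, then the energy equality `D = 0` holds on `[0,T]`. -/
theorem result :
    ∀ (Ω : Set R3), IsOpen Ω → Bornology.IsBounded Ω → ∀ (ν T : ℝ), 0 < ν → 0 < T →
    ∀ (u : ℝ → L2 Ω R3) (G : ℝ → L2 Ω Mat) (f : ℝ → L2 Ω R3), IsWeakSolution Ω ν T u G f →
    ∀ q : ℝ → L1 Ω R3, IsPressureGradient Ω ν T u G f q →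
      (∀ᵐ t ∂(volume.restrict (Ioo 0 T)), ∀ c : ℝ,
        ∫⁻ x in Ω, ENNReal.ofReal (work c (u t) (G t) (q t) x)
          = ∫⁻ x in Ω, ENNReal.ofReal (-work c (u t) (G t) (q t) x)) ∧
      (∀ c : ℝ, ∀ s ∈ Ioc 0 T, ∀ t ∈ Icc s T,
        Tendsto (fun ε : ℝ => ∫ τ in s..t, ∫ x in Ω,
          work c (u τ) (G τ) (q τ) x / √(1 + ε * ‖(u τ).fn x‖ ^ 2)) (𝓝[>] 0)
          (𝓝 (energyDefect ν u G f t - energyDefect ν u G f s))) ∧
      (∀ s ∈ Ioc 0 T, ∀ t ∈ Icc s T, IsWorkBounded u G q s t →
        energyDefect ν u G f s = energyDefect ν u G f t) ∧
      ((∀ t ∈ Icc 0 T, 0 ≤ energyDefect ν u G f t) →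
        (∀ s ∈ Ioo 0 T, IsWorkBounded u G q s T) →
        ∀ t ∈ Icc 0 T, energyDefect ν u G f t = 0) := by
  intro Ω hΩ hb ν T hν hT u G f hu q hq
  exact ea_pub (Ω := Ω) hΩ hb hν hT (toNS hu) hq

end Pool.Agent.Results.MP_a38b17_an.PressureWork
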