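import Pool.Agent.Y303.EJ.Fine

/-!
MP_a38b17_an: Leray-Hopf solutions which lose their energy in one moment, for the Navier-Stokes
equations with Dirichlet conditions in an arbitrary bounded open set of `ℝ³` and an additional
skew-adjoint linear term.

For every viscosity `ν > 0`, every nonempty bounded open set `Ω` of `ℝ³` and every `η > 0` there
are a complete orthonormal system `e` of the space `H` of the problem, which consists of smooth
divergence-free fields with compact support in `Ω`, and a skew-adjoint linear operator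
`K = ∑ s i ⟨·, e (σ i)⟩ e i` such that for

  `∂ₜ u + (u · ∇) u + ∇p = ν Δ u + K u`,  `div u = 0`  in `Ω`,  `u = 0` on `∂Ω`,  `u(0) = e i₀`

there is exactly one Leray-Hopf solution on `[0, T]`. It is smooth and satisfies the energy
equality on `[0, T)`, and at the time `T` it loses all its energy up to the fraction `η`.
-/

set_option autoImplicit false

open Set MeasureTheory

namespace Pool.Agent.Results.MP_a38b17_an.SkewTermEnergyLoss

open Pool.Agent.Y303.SKR Pool.Agent.Y303.EJR

theorem result (ν : ℝ) (Ω : Set (EuclideanSpace ℝ (Fin 3))) (η : ℝ) (hν : 0 < ν)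
    (hΩ : IsOpen Ω) (hb : Bornology.IsBounded Ω) (hne : Ω.Nonempty) (hη : 0 < η) :
    ∃ (ι : Type) (e : ι → EuclideanSpace ℝ (Fin 3) → EuclideanSpace ℝ (Fin 3)) (σ : ι → ι)
      (s : ι → ℝ) (i₀ : ι) (T : ℝ) (u : ℝ → EuclideanSpace ℝ (Fin 3) → EuclideanSpace ℝ (Fin 3)),
      SkewD Ω e σ s ∧ 0 < T ∧ u 0 = e i₀ ∧
      -- `u` is a weak (Leray-Hopf) solution on `[0, T]`
      LH Ω ν e σ s T u (fun t => gr (u t)) ∧
      -- on `[0, T)` it is a classical solution; all derivatives in space are continuous in `ℝ³`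
      -- and bounded, locally uniformly in time
      SolD Ω ν e σ s T u ∧ SmD T u ∧
      -- energy equality on `[0, T)`
      (∀ t ∈ Ico 0 T, ipr (u t) (u t) + 2 * ν * (∫ τ in (0 : ℝ)..t, gg (gr (u τ))) =
        ipr (u 0) (u 0)) ∧
      -- uniqueness of the weak solution
      (∀ (T' : ℝ) (v : ℝ → EuclideanSpace ℝ (Fin 3) → EuclideanSpace ℝ (Fin 3))
        (G : ℝ → EuclideanSpace ℝ (Fin 3) → Fin 3 → EuclideanSpace ℝ (Fin 3)), 0 < T' →
        T' ≤ T → LH Ω ν e σ s T' v G → v 0 =ᵐ[volume] u 0 →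
        ∀ t ∈ Icc 0 T', v t =ᵐ[volume] u t) ∧
      -- the energy which is left at the time `T` and the energy dissipated before it are at most
      -- the fraction `η` of the initial energy
      ∀ (v : ℝ → EuclideanSpace ℝ (Fin 3) → EuclideanSpace ℝ (Fin 3))
        (G : ℝ → EuclideanSpace ℝ (Fin 3) → Fin 3 → EuclideanSpace ℝ (Fin 3)),
        LH Ω ν e σ s T v G → v 0 =ᵐ[volume] u 0 →
        ipr (v T) (v T) + 2 * ν * (∫ τ in (0 : ℝ)..T, gg (G τ)) ≤ η * ipr (v 0) (v 0) :=
  t_RES_of Pool.Agent.Y303.EJ.t_FINE ν Ω η hν hΩ hb hne hη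

end Pool.Agent.Results.MP_a38b17_an.SkewTermEnergyLoss
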